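import Pool.Agent.Helper38.RSP.Goals3

set_option autoImplicit false

namespace Pool.Agent.Helper17.RSP

open NumberField Module IsDedekindDomain Pool.Agent.Helper38.RSP Pool.Agent.Helper51.RP
open Pool.Agent.Helper38.RS (pz)

section

variable {F : Type} [Field F] [NumberField F]

open Classical in
/-- The character `I ↦ exp(2 π i j ψ(I)/p)`, extended by zero. -/
noncomputable def chj (p : ℕ) [NeZero p] (𝔪 : Ideal (𝓞 F)) (ψ : Ideal (𝓞 F) → ZMod p)
    (j : ZMod p) (I : Ideal (𝓞 F)) : ℂ :=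
  if I ≠ ⊥ ∧ I ⊔ 𝔪 = ⊤ then ZMod.stdAddChar (j * ψ I) else 0

variable {p : ℕ} [Fact p.Prime] {𝔪 : Ideal (𝓞 F)} {ψ : Ideal (𝓞 F) → ZMod p}

lemma cop_mul_iff (I J : Ideal (𝓞 F)) : I * J ⊔ 𝔪 = ⊤ ↔ I ⊔ 𝔪 = ⊤ ∧ J ⊔ 𝔪 = ⊤ := by
  rw [← Ideal.isCoprime_iff_sup_eq, ← Ideal.isCoprime_iff_sup_eq, ← Ideal.isCoprime_iff_sup_eq]
  exact IsCoprime.mul_left_iff

lemma std_norm (x : ZMod p) : ‖(ZMod.stdAddChar x : ℂ)‖ = 1 := AddChar.norm_apply _ _

lemma chj_mul (hψ : IsPsi p 𝔪 ψ) (j : ZMod p) (I J : Ideal (𝓞 F)) :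
    chj p 𝔪 ψ j (I * J) = chj p 𝔪 ψ j I * chj p 𝔪 ψ j J := by
  unfold chj
  by_cases hI : I ≠ ⊥ ∧ I ⊔ 𝔪 = ⊤
  · by_cases hJ : J ≠ ⊥ ∧ J ⊔ 𝔪 = ⊤
    · rw [if_pos hI, if_pos hJ, if_pos ⟨mul_ne_zero hI.1 hJ.1, (cop_mul_iff I J).2 ⟨hI.2, hJ.2⟩⟩,
        hψ.mul I J hI.1 hJ.1 hI.2 hJ.2, mul_add, AddChar.map_add_eq_mul]
    · rw [if_neg hJ, mul_zero, if_neg]
      rintro ⟨h1, h2⟩
      exact hJ ⟨right_ne_zero_of_mul h1, ((cop_mul_iff I J).1 h2).2⟩
  · rw [if_neg hI, zero_mul, if_neg]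
    rintro ⟨h1, h2⟩
    exact hI ⟨left_ne_zero_of_mul h1, ((cop_mul_iff I J).1 h2).1⟩

lemma chj_le (j : ZMod p) (I : Ideal (𝓞 F)) : ‖chj p 𝔪 ψ j I‖ ≤ 1 := by
  unfold chj
  split_ifs with h
  · exact (std_norm _).le
  · simp

lemma psi_top (hψ : IsPsi p 𝔪 ψ) : ψ ⊤ = 0 := by
  have h := hψ.ray 1 one_ne_zero (by simp)
  rwa [Ideal.span_singleton_one] at h

lemma chj_top (hψ : IsPsi p 𝔪 ψ) (j : ZMod p) : chj p 𝔪 ψ j ⊤ = 1 := by
  unfold chj
  rw [if_pos ⟨top_ne_bot, top_sup_eq _⟩, psi_top hψ, mul_zero, AddChar.map_zero_eq_one]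

lemma isCh_chj (hψ : IsPsi p 𝔪 ψ) {j : ZMod p} (hj : j ≠ 0) : IsCh 𝔪 (chj p 𝔪 ψ j) where
  ne := hψ.ne
  zero := by
    unfold chj
    rw [if_neg (fun h => h.1 rfl)]
  mul := chj_mul hψ j
  cop := by
    intro I h1 h2
    unfold chj
    rw [if_pos ⟨h1, h2⟩]
    exact std_norm _
  ncop := by
    intro I h1 h2
    unfold chj
    rw [if_neg (fun h => h2 h.2)]
  ray := by
    intro α h1 h2
    unfold chj
    rw [if_pos, hψ.ray α h1 h2, mul_zero, AddChar.map_zero_eq_one]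
    refine ⟨fun h => h1 (Ideal.span_singleton_eq_bot.1 h), ?_⟩
    rw [Ideal.eq_top_iff_one]
    have h3 : (1 : 𝓞 F) = α - (α - 1) := by ring
    rw [h3]
    exact Ideal.sub_mem _ (Ideal.mem_sup_left (Ideal.mem_span_singleton_self α))
      (Ideal.mem_sup_right h2)
  nontriv := by
    obtain ⟨I, h1, h2, h3⟩ := hψ.nontriv
    refine ⟨I, ?_, ?_⟩
    · unfold chj
      rw [if_pos ⟨h1, h2⟩]
      intro h
      have h4 := std_norm (j * ψ I)
      rw [h, norm_zero] at h4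
      exact zero_ne_one h4
    · unfold chj
      rw [if_pos ⟨h1, h2⟩]
      intro h
      rw [← AddChar.map_zero_eq_one (ZMod.stdAddChar (N := p)),
        ZMod.injective_stdAddChar.eq_iff] at h
      exact mul_ne_zero hj h3 h

lemma sum_re (I : Ideal (𝓞 F)) (hI : I ≠ ⊥) :
    ∑ j ∈ Finset.univ.erase (0 : ZMod p), (chj p 𝔪 ψ j I).re =
      (open Classical in if I ⊔ 𝔪 = ⊤ then (if ψ I = 0 then (p : ℝ) - 1 else -1) else 0) := by
  classical
  by_cases h : I ⊔ 𝔪 = ⊤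
  · rw [if_pos h]
    have h1 : ∀ j : ZMod p, chj p 𝔪 ψ j I = ZMod.stdAddChar (j * ψ I) := by
      intro j
      unfold chj
      rw [if_pos ⟨hI, h⟩]
    simp_rw [h1]
    have h2 := AddChar.sum_mulShift (ψ I) (ZMod.isPrimitive_stdAddChar p)
    have h3 := Finset.sum_erase_eq_sub (s := Finset.univ) (a := (0 : ZMod p))
      (f := fun j : ZMod p => (ZMod.stdAddChar (j * ψ I) : ℂ).re) (Finset.mem_univ _)
    rw [h3, ← Complex.re_sum, h2, zero_mul, AddChar.map_zero_eq_one, ZMod.card]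
    split_ifs <;> simp
  · rw [if_neg h]
    refine Finset.sum_eq_zero (fun j _ => ?_)
    unfold chj
    rw [if_neg (fun h' => h h'.2), Complex.zero_re]

lemma one_le_N (v : HeightOneSpectrum (𝓞 F)) : (1 : ℝ) ≤ (Ideal.absNorm v.asIdeal : ℝ) := by
  have : Ideal.absNorm v.asIdeal ≠ 0 := fun h => v.ne_bot (Ideal.absNorm_eq_zero_iff.1 h)
  exact_mod_cast Nat.one_le_iff_ne_zero.2 this

lemma pz_univ (s : ℝ) : pz (F := F) Set.univ s =
    ∑' v : HeightOneSpectrum (𝓞 F), (Ideal.absNorm v.asIdeal : ℝ) ^ (-s) := by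
  unfold Pool.Agent.Helper38.RS.pz
  exact tsum_univ (fun v : HeightOneSpectrum (𝓞 F) => (Ideal.absNorm v.asIdeal : ℝ) ^ (-s))

lemma summable_N (h3 : Pool.Agent.Helper38.RS.S_PSM) (s : ℝ) (hs : 1 < s) :
    Summable fun v : HeightOneSpectrum (𝓞 F) => (Ideal.absNorm v.asIdeal : ℝ) ^ (-s) := by
  obtain ⟨C, hC⟩ := h3 F
  have hC0 : 0 ≤ C := le_trans (abs_nonneg _) (hC 2 one_lt_two le_rfl)
  set t : ℝ := min (s - 1) (Real.exp (-(C + 1))) with ht
  have ht0 : 0 < t := lt_min (by linarith) (Real.exp_pos _)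
  have ht1 : t ≤ 1 := le_trans (min_le_right _ _) (Real.exp_le_one_iff.2 (by linarith))
  have h1 := hC (1 + t) (by linarith) (by linarith)
  have h2 : C + 1 ≤ Real.log (1 / (1 + t - 1)) := by
    rw [add_sub_cancel_left, one_div, Real.log_inv, le_neg]
    have := Real.log_le_log ht0 (min_le_right (s - 1) (Real.exp (-(C + 1))))
    rwa [Real.log_exp] at this
  have h4 : pz (F := F) Set.univ (1 + t) ≠ 0 := by
    intro h
    rw [h, zero_sub, abs_neg] at h1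
    have := le_trans (le_abs_self _) h1
    linarith
  rw [pz_univ] at h4
  have h5 : Summable fun v : HeightOneSpectrum (𝓞 F) =>
      (Ideal.absNorm v.asIdeal : ℝ) ^ (-(1 + t)) := by
    by_contra h
    exact h4 (tsum_eq_zero_of_not_summable h)
  refine Summable.of_nonneg_of_le (fun v => Real.rpow_nonneg (Nat.cast_nonneg _) _)
    (fun v => ?_) h5
  refine Real.rpow_le_rpow_of_exponent_le (one_le_N v) ?_
  have : t ≤ s - 1 := min_le_left _ _
  linarith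

lemma fin_ncop (h𝔪 : 𝔪 ≠ ⊥) : {v : HeightOneSpectrum (𝓞 F) | v.asIdeal ⊔ 𝔪 ≠ ⊤}.Finite := by
  refine (Ideal.finite_factors (I := 𝔪) h𝔪).subset (fun v hv => ?_)
  refine Ideal.dvd_iff_le.2 ?_
  by_contra h
  exact hv (v.isMaximal.out.2 _ (left_lt_sup.2 h))

end

theorem sp_hlf (h1 : SP_LBD) (h2 : SP_EUL) (h3 : Pool.Agent.Helper38.RS.S_PSM) : SP_HLF := by
  classical
  intro p _ F _ _ _ 𝔪 ψ hψ
  obtain ⟨CE, hCE⟩ := h2 F
  obtain ⟨CP, hCP⟩ := h3 F
  have hb : ∀ j : ZMod p, ∃ C : ℝ, j ≠ 0 → ∀ s : ℝ, 1 < s → s ≤ 2 →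
      ∑' v : HeightOneSpectrum (𝓞 F), (chj p 𝔪 ψ j v.asIdeal).re *
        (Ideal.absNorm v.asIdeal : ℝ) ^ (-s) ≤ C := by
    intro j
    by_cases hj : j = 0
    · exact ⟨0, fun h => absurd hj h⟩
    obtain ⟨C, hC⟩ := h1 F 𝔪 (chj p 𝔪 ψ j) (isCh_chj hψ hj)
    refine ⟨Real.log C + CE, fun _ s hs hs2 => ?_⟩
    obtain ⟨h4, h5⟩ := hCE (chj p 𝔪 ψ j) (chj_top hψ j) (chj_mul hψ j) (chj_le j) s hs
    have h6 : Real.log ‖Lc (chj p 𝔪 ψ j) s‖ ≤ Real.log C :=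
      Real.log_le_log (norm_pos_iff.2 h4) (hC s hs hs2)
    have h7 := (abs_le.1 h5).1
    linarith
  choose C hC using hb
  set n : ℕ := (fin_ncop (F := F) hψ.ne).toFinset.card with hn
  have hp0 : (0 : ℝ) < p := by exact_mod_cast (Fact.out : p.Prime).pos
  have hp1 : (1 : ℝ) ≤ p := by exact_mod_cast (Fact.out : p.Prime).one_le
  refine ⟨(((p : ℝ) - 1) * CP + (∑ j ∈ Finset.univ.erase (0 : ZMod p), C j) +
    ((p : ℝ) - 1) * n) / p, fun s hs hs2 => ?_⟩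
  have hS := summable_N (F := F) h3 s hs
  set a : HeightOneSpectrum (𝓞 F) → ℝ := fun v => (Ideal.absNorm v.asIdeal : ℝ) ^ (-s) with ha
  have ha0 : ∀ v, 0 ≤ a v := fun v => Real.rpow_nonneg (Nat.cast_nonneg _) _
  have ha1 : ∀ v, a v ≤ 1 := fun v =>
    Real.rpow_le_one_of_one_le_of_nonpos (one_le_N v) (by linarith)
  set B : Set (HeightOneSpectrum (𝓞 F)) := {v | v.asIdeal ⊔ 𝔪 = ⊤ ∧ ψ v.asIdeal ≠ 0} with hB
  set D : Set (HeightOneSpectrum (𝓞 F)) := {v | v.asIdeal ⊔ 𝔪 ≠ ⊤} with hD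
  have hBs : pz B s = ∑' v, B.indicator a v := by
    unfold Pool.Agent.Helper38.RS.pz
    exact tsum_subtype B a
  have hDs : ∑' v, D.indicator a v ≤ n := by
    rw [tsum_eq_sum (s := (fin_ncop (F := F) hψ.ne).toFinset)]
    · refine le_trans (Finset.sum_le_sum (g := fun _ => (1 : ℝ)) (fun v _ => ?_)) ?_
      · exact Set.indicator_le' (fun v _ => ha1 v) (fun _ _ => zero_le_one) v
      · simp [hn]
    · intro v hv
      refine Set.indicator_of_notMem (fun h => hv ?_) _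
      rw [Set.Finite.mem_toFinset]
      exact h
  have hre : ∀ j : ZMod p, Summable fun v : HeightOneSpectrum (𝓞 F) =>
      (chj p 𝔪 ψ j v.asIdeal).re * a v := by
    intro j
    refine Summable.of_norm_bounded hS (fun v => ?_)
    rw [norm_mul, Real.norm_eq_abs, Real.norm_eq_abs, abs_of_nonneg (ha0 v)]
    exact mul_le_of_le_one_left (ha0 v) (le_trans (Complex.abs_re_le_norm _) (chj_le j _))
  have hsum : ∑' v : HeightOneSpectrum (𝓞 F),
      (∑ j ∈ Finset.univ.erase (0 : ZMod p), (chj p 𝔪 ψ j v.asIdeal).re) * a v ≤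
        ∑ j ∈ Finset.univ.erase (0 : ZMod p), C j := by
    simp_rw [Finset.sum_mul]
    rw [Summable.tsum_finsetSum (fun j _ => hre j)]
    exact Finset.sum_le_sum (fun j hj => hC j (Finset.ne_of_mem_erase hj) s hs hs2)
  have hkey : ∀ v : HeightOneSpectrum (𝓞 F), (p : ℝ) * B.indicator a v =
      ((p : ℝ) - 1) * a v -
        (∑ j ∈ Finset.univ.erase (0 : ZMod p), (chj p 𝔪 ψ j v.asIdeal).re) * a v -
        ((p : ℝ) - 1) * D.indicator a v := by
    intro v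
    rw [sum_re v.asIdeal v.ne_bot]
    by_cases h : v.asIdeal ⊔ 𝔪 = ⊤
    · have hvD : v ∉ D := fun h' => h' h
      rw [if_pos h, Set.indicator_of_notMem hvD]
      by_cases h' : ψ v.asIdeal = 0
      · have hvB : v ∉ B := fun h'' => h''.2 h'
        rw [if_pos h', Set.indicator_of_notMem hvB]
        ring
      · have hvB : v ∈ B := ⟨h, h'⟩
        rw [if_neg h', Set.indicator_of_mem hvB]
        ring
    · have hvD : v ∈ D := h
      have hvB : v ∉ B := fun h'' => h h''.1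
      rw [if_neg h, Set.indicator_of_mem hvD, Set.indicator_of_notMem hvB]
      ring
  have hSc : Summable fun v : HeightOneSpectrum (𝓞 F) =>
      (∑ j ∈ Finset.univ.erase (0 : ZMod p), (chj p 𝔪 ψ j v.asIdeal).re) * a v := by
    simp_rw [Finset.sum_mul]
    exact summable_sum (fun j _ => hre j)
  have hSD : Summable fun v => D.indicator a v := hS.indicator D
  have heq : (p : ℝ) * pz B s = ((p : ℝ) - 1) * pz (F := F) Set.univ s -
      ∑' v : HeightOneSpectrum (𝓞 F),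
        (∑ j ∈ Finset.univ.erase (0 : ZMod p), (chj p 𝔪 ψ j v.asIdeal).re) * a v -
      ((p : ℝ) - 1) * ∑' v, D.indicator a v := by
    rw [hBs, pz_univ, ← tsum_mul_left, tsum_congr hkey,
      Summable.tsum_sub ((hS.mul_left _).sub hSc) (hSD.mul_left _),
      Summable.tsum_sub (hS.mul_left _) hSc, tsum_mul_left, tsum_mul_left]
  have hlow : Real.log (1 / (s - 1)) - CP ≤ pz (F := F) Set.univ s := by
    have := (abs_le.1 (hCP s hs hs2)).1
    linarith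
  have h8 : ((p : ℝ) - 1) * (Real.log (1 / (s - 1)) - CP) ≤
      ((p : ℝ) - 1) * pz (F := F) Set.univ s := mul_le_mul_of_nonneg_left hlow (by linarith)
  have h9 : ((p : ℝ) - 1) * ∑' v, D.indicator a v ≤ ((p : ℝ) - 1) * n :=
    mul_le_mul_of_nonneg_left hDs (by linarith)
  have h10 : (p : ℝ) * ((1 - 1 / (p : ℝ)) * Real.log (1 / (s - 1)) -
      (((p : ℝ) - 1) * CP + (∑ j ∈ Finset.univ.erase (0 : ZMod p), C j) +
        ((p : ℝ) - 1) * n) / p) ≤ (p : ℝ) * pz B s := by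
    rw [heq]
    have h11 : (p : ℝ) * ((1 - 1 / (p : ℝ)) * Real.log (1 / (s - 1)) -
        (((p : ℝ) - 1) * CP + (∑ j ∈ Finset.univ.erase (0 : ZMod p), C j) +
          ((p : ℝ) - 1) * n) / p) = ((p : ℝ) - 1) * Real.log (1 / (s - 1)) -
        (((p : ℝ) - 1) * CP + (∑ j ∈ Finset.univ.erase (0 : ZMod p), C j) +
          ((p : ℝ) - 1) * n) := by
      field_simp
    rw [h11]
    linarith
  exact le_of_mul_le_mul_left h10 hp0

end Pool.Agent.Helper17.RSP
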