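import Pool.Agent.Helper17.RSP.LBDa

set_option autoImplicit false

namespace Pool.Agent.Helper17.RSP

open NumberField Module IsDedekindDomain Pool.Agent.Helper38.RSP
open Pool.Agent.Helper38.RS (pz gs hf Gf absN)

section

variable {F : Type} [Field F] [NumberField F]

lemma csum {ι : Type} {w : ι → ℝ} (hw : Summable w) (hw0 : ∀ i, 0 ≤ w i) {a : ι → ℂ}
    (ha : ∀ i, ‖a i‖ ≤ 1) :
    Summable (fun i => a i * ((w i : ℝ) : ℂ)) ∧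
    (∑' i, a i * ((w i : ℝ) : ℂ)).re = ∑' i, (a i).re * w i ∧
    (∑' i, a i * ((w i : ℝ) : ℂ)).im = ∑' i, (a i).im * w i := by
  have h1 : Summable (fun i => a i * ((w i : ℝ) : ℂ)) := by
    refine Summable.of_norm_bounded hw (fun i => ?_)
    rw [norm_mul, Complex.norm_real, Real.norm_eq_abs, abs_of_nonneg (hw0 i)]
    exact mul_le_of_le_one_left (hw0 i) (ha i)
  refine ⟨h1, ?_, ?_⟩
  · rw [Complex.re_tsum h1]
    exact tsum_congr (fun i => by rw [Complex.re_mul_ofReal])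
  · rw [Complex.im_tsum h1]
    exact tsum_congr (fun i => by rw [Complex.im_mul_ofReal])

lemma hf_nonneg (α : F) : 0 ≤ hf α := by
  unfold Pool.Agent.Helper38.RS.hf Pool.Agent.Helper38.RS.absN
  exact div_nonneg (pow_nonneg (abs_nonneg _) _) (pow_nonneg (house_nonneg _) _)

lemma gs_nonneg (s : ℝ) (α : F) : 0 ≤ gs s α := by
  unfold Pool.Agent.Helper38.RS.gs Pool.Agent.Helper38.RS.Gf Pool.Agent.Helper38.RS.absN
  exact mul_nonneg (div_nonneg (hf_nonneg _) (tsum_nonneg (fun _ => hf_nonneg _)))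
    (Real.rpow_nonneg (abs_nonneg _) _)

lemma summable_P (g : Ideal (𝓞 F) → ℝ) (Λ : Ideal (𝓞 F))
    (hS : Summable fun J : {J : Ideal (𝓞 F) // J ≠ ⊥} => g J.1) :
    Summable fun J : {J : Ideal (𝓞 F) // J ≠ ⊥ ∧ J ≤ Λ ∧ J.IsPrincipal} => g J.1 := by
  let i : {J : Ideal (𝓞 F) // J ≠ ⊥ ∧ J ≤ Λ ∧ J.IsPrincipal} → {J : Ideal (𝓞 F) // J ≠ ⊥} :=
    fun J => ⟨J.1, J.2.1⟩
  have hinj : Function.Injective i := by
    rintro ⟨J, hJ⟩ ⟨J', hJ'⟩ h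
    have h' : J = J' := congrArg Subtype.val h
    subst h'
    rfl
  exact hS.comp_injective (i := i) hinj

lemma tsum_P_le (g : Ideal (𝓞 F) → ℝ) (hg : ∀ J, 0 ≤ g J) (Λ : Ideal (𝓞 F))
    (hS : Summable fun J : {J : Ideal (𝓞 F) // J ≠ ⊥} => g J.1) :
    ∑' J : {J : Ideal (𝓞 F) // J ≠ ⊥ ∧ J ≤ Λ ∧ J.IsPrincipal}, g J.1 ≤
      ∑' J : {J : Ideal (𝓞 F) // J ≠ ⊥}, g J.1 := by
  let i : {J : Ideal (𝓞 F) // J ≠ ⊥ ∧ J ≤ Λ ∧ J.IsPrincipal} → {J : Ideal (𝓞 F) // J ≠ ⊥} :=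
    fun J => ⟨J.1, J.2.1⟩
  have hinj : Function.Injective i := by
    rintro ⟨J, hJ⟩ ⟨J', hJ'⟩ h
    have h' : J = J' := congrArg Subtype.val h
    subst h'
    rfl
  exact tsum_comp_le_tsum_of_inj hS (fun J => hg J.1) hinj

lemma unf_c (h : Pool.Agent.Helper38.RS.S_UNF) {s : ℝ} (hs : 1 < s)
    (hS : Summable fun J : {J : Ideal (𝓞 F) // J ≠ ⊥} => (Ideal.absNorm J.1 : ℝ) ^ (-s))
    {f : Ideal (𝓞 F) → ℂ} (hf1 : ∀ J, ‖f J‖ ≤ 1) (Λ : Ideal (𝓞 F)) :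
    ∑' α : {α : 𝓞 F // α ≠ 0 ∧ α ∈ Λ},
        f (Ideal.span {α.1}) * ((gs s ((α.1 : 𝓞 F) : F) : ℝ) : ℂ) =
      ∑' J : {J : Ideal (𝓞 F) // J ≠ ⊥ ∧ J ≤ Λ ∧ J.IsPrincipal},
        f J.1 * (((Ideal.absNorm J.1 : ℝ) ^ (-s) : ℝ) : ℂ) := by
  have hre := h F s hs (fun J => (f J).re)
    (fun J => le_trans (Complex.abs_re_le_norm _) (hf1 J)) Λ
  have him := h F s hs (fun J => (f J).im)
    (fun J => le_trans (Complex.abs_im_le_norm _) (hf1 J)) Λ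
  have hP := summable_P (fun J => (Ideal.absNorm J : ℝ) ^ (-s)) Λ hS
  have c1 := csum (w := fun α : {α : 𝓞 F // α ≠ 0 ∧ α ∈ Λ} => gs s ((α.1 : 𝓞 F) : F)) hre.1
    (fun α => gs_nonneg _ _) (a := fun α => f (Ideal.span {α.1})) (fun α => hf1 _)
  have c2 := csum (w := fun J : {J : Ideal (𝓞 F) // J ≠ ⊥ ∧ J ≤ Λ ∧ J.IsPrincipal} =>
    (Ideal.absNorm J.1 : ℝ) ^ (-s)) hP
    (fun J => Real.rpow_nonneg (Nat.cast_nonneg _) _) (a := fun J => f J.1) (fun J => hf1 _)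
  apply Complex.ext
  · rw [c1.2.1, c2.2.1]
    exact hre.2
  · rw [c1.2.2, c2.2.2]
    exact him.2

lemma gs_summable (h : Pool.Agent.Helper38.RS.S_UNF) {s : ℝ} (hs : 1 < s) :
    Summable fun α : {α : 𝓞 F // α ≠ 0} => gs s ((α.1 : 𝓞 F) : F) := by
  have h1 := (h F s hs (fun _ => 1) (fun _ => by norm_num) ⊤).1
  let i : {α : 𝓞 F // α ≠ 0} → {α : 𝓞 F // α ≠ 0 ∧ α ∈ (⊤ : Ideal (𝓞 F))} :=
    fun α => ⟨α.1, α.2, trivial⟩
  have hinj : Function.Injective i := by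
    rintro ⟨J, hJ⟩ ⟨J', hJ'⟩ h
    have h' : J = J' := congrArg Subtype.val h
    subst h'
    rfl
  exact h1.comp_injective (i := i) hinj

/-- the sum over a nonzero ideal -/
noncomputable def XX (Λ : Ideal (𝓞 F)) (s : ℝ) : ℝ :=
  ∑' α : {α : 𝓞 F // α ≠ 0 ∧ α ∈ Λ}, gs s ((α.1 : 𝓞 F) : F)

lemma par_c [IsTotallyComplex F] (h : Pool.Agent.Helper38.RS.S_PAR)
    (hU : Pool.Agent.Helper38.RS.S_UNF) {Λ : Ideal (𝓞 F)} (hΛ : Λ ≠ ⊥) {η : 𝓞 F → ℂ}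
    (hη : ∀ α β, β ∈ Λ → η (α + β) = η α) (hb : ∀ α, ‖η α‖ ≤ 1) :
    ∃ C : ℝ, ∀ s : ℝ, 1 < s → s ≤ 2 →
    ‖∑' α : {α : 𝓞 F // α ≠ 0}, η α.1 * ((gs s ((α.1 : 𝓞 F) : F) : ℝ) : ℂ) -
      (∑ᶠ ρ : 𝓞 F ⧸ Λ, η (Function.surjInv Ideal.Quotient.mk_surjective ρ)) *
        ((XX Λ s : ℝ) : ℂ)‖ ≤ C := by
  obtain ⟨C1, h1⟩ := h F Λ hΛ (fun α => (η α).re) (fun α β hβ => by rw [hη α β hβ])
  obtain ⟨C2, h2⟩ := h F Λ hΛ (fun α => (η α).im) (fun α β hβ => by rw [hη α β hβ])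
  refine ⟨C1 + C2, fun s hs hs2 => ?_⟩
  have : Finite (𝓞 F ⧸ Λ) := finQ hΛ
  have := Fintype.ofFinite (𝓞 F ⧸ Λ)
  have e1 := h1 s hs hs2
  have e2 := h2 s hs hs2
  rw [finsum_eq_sum_of_fintype] at e1 e2
  rw [finsum_eq_sum_of_fintype]
  have c1 := csum (w := fun α : {α : 𝓞 F // α ≠ 0} => gs s ((α.1 : 𝓞 F) : F))
    (gs_summable hU hs) (fun α => gs_nonneg _ _) (a := fun α => η α.1) (fun α => hb _)
  refine le_trans (Complex.norm_le_abs_re_add_abs_im _) (add_le_add ?_ ?_)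
  · rw [Complex.sub_re, c1.2.1, Complex.re_mul_ofReal, Complex.re_sum]
    exact e1
  · rw [Complex.sub_im, c1.2.2, Complex.im_mul_ofReal, Complex.im_sum]
    exact e2

lemma ext_zero {𝔪 : Ideal (𝓞 F)} {χ : Ideal (𝓞 F) → ℂ} (μ : 𝓞 F) (c : Ideal (𝓞 F)) (s : ℝ) :
    ∑' α : {α : 𝓞 F // α ≠ 0}, et χ μ c α.1 * ((gs s ((α.1 : 𝓞 F) : F) : ℝ) : ℂ) =
    ∑' α : {α : 𝓞 F // α ≠ 0 ∧ α ∈ c},
        χ (Ideal.span {α.1}) * ((gs s ((α.1 : 𝓞 F) : F) : ℝ) : ℂ) := by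
  classical
  let u : 𝓞 F → ℂ := fun α => et χ μ c α * ((gs s (α : F) : ℝ) : ℂ)
  have h1 : ∑' α : {α : 𝓞 F // α ≠ 0}, u α.1 = ∑' α, ({α : 𝓞 F | α ≠ 0}).indicator u α :=
    tsum_subtype {α : 𝓞 F | α ≠ 0} u
  have h2 : ∑' α : {α : 𝓞 F // α ≠ 0 ∧ α ∈ c}, u α.1 =
      ∑' α, ({α : 𝓞 F | α ≠ 0 ∧ α ∈ c}).indicator u α :=
    tsum_subtype {α : 𝓞 F | α ≠ 0 ∧ α ∈ c} u
  have h3 : ({α : 𝓞 F | α ≠ 0}).indicator u = ({α : 𝓞 F | α ≠ 0 ∧ α ∈ c}).indicator u := by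
    funext α
    by_cases hα : α ∈ c
    · by_cases h0 : α ≠ 0
      · rw [Set.indicator_of_mem (show α ∈ {α : 𝓞 F | α ≠ 0} from h0),
          Set.indicator_of_mem (show α ∈ {α : 𝓞 F | α ≠ 0 ∧ α ∈ c} from ⟨h0, hα⟩)]
      · rw [Set.indicator_of_notMem (show α ∉ {α : 𝓞 F | α ≠ 0} from h0),
          Set.indicator_of_notMem (show α ∉ {α : 𝓞 F | α ≠ 0 ∧ α ∈ c} from fun h => h0 h.1)]
    · have hu : u α = 0 := by
        show et χ μ c α * _ = 0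
        rw [et_nmem _ _ hα, zero_mul]
      rw [Set.indicator_of_notMem (show α ∉ {α : 𝓞 F | α ≠ 0 ∧ α ∈ c} from fun h => hα h.2)]
      by_cases h0 : α ∈ {α : 𝓞 F | α ≠ 0}
      · rw [Set.indicator_of_mem h0, hu]
      · rw [Set.indicator_of_notMem h0]
  have h4 : ∑' α : {α : 𝓞 F // α ≠ 0}, u α.1 = ∑' α : {α : 𝓞 F // α ≠ 0 ∧ α ∈ c}, u α.1 := by
    rw [h1, h2, h3]
  refine h4.trans (tsum_congr (fun α => ?_))
  show et χ μ c α.1 * _ = _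
  rw [et_mem _ _ α.2.2, ch_ne _ _ α.2.1]

lemma decomp {𝔪 : Ideal (𝓞 F)} {χ : Ideal (𝓞 F) → ℂ} (hχ : IsCh 𝔪 χ) {h : ℕ}
    (c : Fin h → Ideal (𝓞 F)) (hc : ∀ j, c j ≠ ⊥ ∧ c j ⊔ 𝔪 = ⊤)
    (hu : ∀ J : Ideal (𝓞 F), J ≠ ⊥ → ∃! j, (J * c j).IsPrincipal) (s : ℝ)
    (hS : Summable fun J : {J : Ideal (𝓞 F) // J ≠ ⊥} => (Ideal.absNorm J.1 : ℝ) ^ (-s)) :
    Lc χ s = ∑ j, (χ (c j))⁻¹ * (((Ideal.absNorm (c j) : ℝ) ^ s : ℝ) : ℂ) *
      ∑' J : {J : Ideal (𝓞 F) // J ≠ ⊥ ∧ J ≤ c j ∧ J.IsPrincipal},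
        χ J.1 * (((Ideal.absNorm J.1 : ℝ) ^ (-s) : ℝ) : ℂ) := by
  classical
  have hne : ∀ j, χ (c j) ≠ 0 := by
    intro j h0
    have := hχ.cop _ (hc j).1 (hc j).2
    rw [h0, norm_zero] at this
    exact zero_ne_one this
  let t : {J : Ideal (𝓞 F) // J ≠ ⊥} → ℂ :=
    fun J => χ J.1 * (((Ideal.absNorm J.1 : ℝ) ^ (-s) : ℝ) : ℂ)
  have ht : Summable t := (csum hS (fun J => Real.rpow_nonneg (Nat.cast_nonneg _) _)
    (a := fun J : {J : Ideal (𝓞 F) // J ≠ ⊥} => χ J.1) (fun J => chi_norm_le hχ _)).1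
  let A : Fin h → Set {J : Ideal (𝓞 F) // J ≠ ⊥} := fun j => {J | (J.1 * c j).IsPrincipal}
  have h1 : ∀ J, t J = ∑ j, (A j).indicator t J := by
    intro J
    obtain ⟨j, hj, hju⟩ := hu J.1 J.2
    rw [Finset.sum_eq_single j]
    · rw [Set.indicator_of_mem (show J ∈ A j from hj)]
    · intro i _ hij
      rw [Set.indicator_of_notMem]
      intro hi
      exact hij (hju i hi)
    · intro hj'
      exact absurd (Finset.mem_univ _) hj'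
  have h2 : Lc χ s = ∑ j, ∑' J, (A j).indicator t J := by
    show ∑' J, t J = _
    rw [tsum_congr h1]
    exact Summable.tsum_finsetSum (fun j _ => ht.indicator (A j))
  rw [h2]
  refine Finset.sum_congr rfl (fun j _ => ?_)
  rw [← tsum_subtype (A j) t]
  have hcj := (hc j).1
  let i : (A j) → {J : Ideal (𝓞 F) // J ≠ ⊥ ∧ J ≤ c j ∧ J.IsPrincipal} :=
    fun J => ⟨J.1.1 * c j, mul_ne_zero J.1.2 hcj, Ideal.mul_le_right, J.2⟩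
  have hi : Function.Bijective i := by
    constructor
    · intro J J' hJJ
      have h3 : J.1.1 * c j = J'.1.1 * c j := congrArg Subtype.val hJJ
      exact Subtype.ext (Subtype.ext (mul_right_cancel₀ hcj h3))
    · intro J
      obtain ⟨I, hI⟩ := Ideal.dvd_iff_le.mpr J.2.2.1
      have hI0 : I ≠ ⊥ := by
        rintro rfl
        apply J.2.1
        rw [hI, Ideal.mul_bot]
      have hI' : I * c j = J.1 := by rw [hI, mul_comm]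
      refine ⟨⟨⟨I, hI0⟩, ?_⟩, Subtype.ext hI'⟩
      show (I * c j).IsPrincipal
      rw [hI']
      exact J.2.2.2
  rw [← (Equiv.ofBijective i hi).tsum_eq, ← tsum_mul_left]
  refine tsum_congr (fun J => ?_)
  show χ J.1.1 * (((Ideal.absNorm J.1.1 : ℝ) ^ (-s) : ℝ) : ℂ) =
    (χ (c j))⁻¹ * (((Ideal.absNorm (c j) : ℝ) ^ s : ℝ) : ℂ) *
      (χ (J.1.1 * c j) * (((Ideal.absNorm (J.1.1 * c j) : ℝ) ^ (-s) : ℝ) : ℂ))
  rw [hχ.mul, map_mul, Nat.cast_mul, Real.mul_rpow (Nat.cast_nonneg _) (Nat.cast_nonneg _)]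
  have h4 : (0 : ℝ) < (Ideal.absNorm (c j) : ℝ) := by
    have : Ideal.absNorm (c j) ≠ 0 := by
      rw [Ne, Ideal.absNorm_eq_zero_iff]
      exact hcj
    exact_mod_cast Nat.pos_of_ne_zero this
  have h5 : (Ideal.absNorm (c j) : ℝ) ^ s * (Ideal.absNorm (c j) : ℝ) ^ (-s) = 1 := by
    rw [← Real.rpow_add h4, add_neg_cancel, Real.rpow_zero]
  have h6 : (((Ideal.absNorm (c j) : ℝ) ^ s : ℝ) : ℂ) *
      (((Ideal.absNorm (c j) : ℝ) ^ (-s) : ℝ) : ℂ) = 1 := by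
    rw [← Complex.ofReal_mul, h5, Complex.ofReal_one]
  have h7 := inv_mul_cancel₀ (hne j)
  rw [Complex.ofReal_mul]
  generalize (((Ideal.absNorm (c j) : ℝ) ^ s : ℝ) : ℂ) = n2 at h6 ⊢
  generalize (((Ideal.absNorm (c j) : ℝ) ^ (-s) : ℝ) : ℂ) = n3 at h6 ⊢
  generalize (((Ideal.absNorm J.1.1 : ℝ) ^ (-s) : ℝ) : ℂ) = n1
  calc χ J.1.1 * n1 = χ J.1.1 * n1 * 1 * 1 := by ring
    _ = χ J.1.1 * n1 * ((χ (c j))⁻¹ * χ (c j)) * (n2 * n3) := by rw [h6, h7]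
    _ = (χ (c j))⁻¹ * n2 * (χ J.1.1 * χ (c j) * (n1 * n3)) := by ring

end

theorem sp_lbd (hU : Pool.Agent.Helper38.RS.S_UNF) (hP : Pool.Agent.Helper38.RS.S_PAR)
    (hR : Pool.Agent.Helper38.RS.S_REP) (hZ : Pool.Agent.Helper38.RS.S_ZET) : SP_LBD := by
  intro F _ _ _ 𝔪 χ hχ
  obtain ⟨h, c, hc, hu⟩ := hR F 𝔪 hχ.ne
  obtain ⟨Z, hZ'⟩ := hZ F
  obtain ⟨μ, hμ, hμ0⟩ := Submodule.exists_mem_ne_zero_of_ne_bot hχ.ne
  let Λ : Ideal (𝓞 F) := 𝔪 * ∏ j, c j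
  have hΛ : Λ ≠ ⊥ := mul_ne_zero hχ.ne (Finset.prod_ne_zero_iff.mpr (fun j _ => (hc j).1))
  have hΛm : Λ ≤ 𝔪 := Ideal.mul_le_left
  have hΛc : ∀ j, Λ ≤ c j := by
    intro j
    refine le_trans Ideal.mul_le_right ?_
    exact Ideal.prod_le_inf.trans (Finset.inf_le (Finset.mem_univ j))
  have hnc : ∀ j, (1 : ℝ) ≤ (Ideal.absNorm (c j) : ℝ) := by
    intro j
    have : Ideal.absNorm (c j) ≠ 0 := by
      rw [Ne, Ideal.absNorm_eq_zero_iff]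
      exact (hc j).1
    exact_mod_cast Nat.pos_of_ne_zero this
  -- the coefficients
  let κ : Fin h → ℂ := fun j =>
    ∑ᶠ ρ : 𝓞 F ⧸ Λ, et χ μ (c j) (Function.surjInv Ideal.Quotient.mk_surjective ρ)
  have hpar : ∀ j, ∃ C : ℝ, ∀ s : ℝ, 1 < s → s ≤ 2 →
      ‖∑' α : {α : 𝓞 F // α ≠ 0}, et χ μ (c j) α.1 * ((gs s ((α.1 : 𝓞 F) : F) : ℝ) : ℂ) -
        κ j * ((XX Λ s : ℝ) : ℂ)‖ ≤ C := by
    intro j
    refine par_c hP hU hΛ (fun α β hβ => ?_) (fun α => et_norm_le hχ μ (c j) α)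
    refine et_congr hχ hμ hμ0 ?_ ?_
    · rw [add_sub_cancel_left]; exact hΛm hβ
    · rw [add_sub_cancel_left]; exact hΛc j hβ
  choose C hC using hpar
  have hnm : (Ideal.absNorm 𝔪 : ℂ) ≠ 0 := by
    have : Ideal.absNorm 𝔪 ≠ 0 := by
      rw [Ne, Ideal.absNorm_eq_zero_iff]
      exact hχ.ne
    exact_mod_cast this
  let K : ℂ := (Ideal.absNorm Λ : ℂ) * tot χ μ 𝔪 / (Ideal.absNorm 𝔪 : ℂ)
  have hK : ∀ j, ((Ideal.absNorm (c j) : ℝ) : ℂ) * κ j = K := by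
    intro j
    have h1 := kappa hχ hμ hμ0 (hc j).1 (hc j).2 hΛ hΛm (hΛc j)
    show _ = (Ideal.absNorm Λ : ℂ) * tot χ μ 𝔪 / (Ideal.absNorm 𝔪 : ℂ)
    rw [eq_div_iff hnm, ← h1, Complex.ofReal_natCast]
    ring
  have hsum0 : K ≠ 0 → ∑ j, (χ (c j))⁻¹ = 0 := by
    intro hK0
    refine sum_class hχ c hc hu (fun α hα hα' => ?_)
    refine tot_ne hχ hμ hμ0 ?_ hα hα'
    intro h0
    apply hK0
    show (Ideal.absNorm Λ : ℂ) * tot χ μ 𝔪 / (Ideal.absNorm 𝔪 : ℂ) = 0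
    rw [h0, mul_zero, zero_div]
  have hinv : ∀ j, ‖(χ (c j))⁻¹‖ = 1 := by
    intro j
    rw [norm_inv, hχ.cop _ (hc j).1 (hc j).2, inv_one]
  have hZ0 : 0 ≤ Z := by
    have := hZ' 2 (by norm_num) le_rfl
    have h3 : (0 : ℝ) < Z / (2 - 1) := lt_of_lt_of_le this.2.1 this.2.2
    norm_num at h3
    exact h3.le
  refine ⟨∑ j, (Ideal.absNorm (c j) : ℝ) ^ (2 : ℝ) * C j +
    ‖K‖ * (∑ j, ((Ideal.absNorm (c j) : ℝ) - 1)) * Z, fun s hs hs2 => ?_⟩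
  have hs0 : 0 < s - 1 := by linarith
  have hS : Summable fun J : {J : Ideal (𝓞 F) // J ≠ ⊥} => (Ideal.absNorm J.1 : ℝ) ^ (-s) := by
    have h1 := (hZ' s hs hs2).2.1
    by_contra h2
    have h3 : Pool.Agent.Helper38.RS.Lf (F := F) (fun _ => 1) s = 0 := by
      unfold Pool.Agent.Helper38.RS.Lf
      simp only [one_mul]
      exact tsum_eq_zero_of_not_summable h2
    rw [h3] at h1
    exact lt_irrefl _ h1
  have hLf : Pool.Agent.Helper38.RS.Lf (F := F) (fun _ => 1) s =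
      ∑' J : {J : Ideal (𝓞 F) // J ≠ ⊥}, (Ideal.absNorm J.1 : ℝ) ^ (-s) := by
    unfold Pool.Agent.Helper38.RS.Lf
    simp only [one_mul]
  have hXX : XX Λ s = ∑' J : {J : Ideal (𝓞 F) // J ≠ ⊥ ∧ J ≤ Λ ∧ J.IsPrincipal},
      (Ideal.absNorm J.1 : ℝ) ^ (-s) := by
    have h1 := (hU F s hs (fun _ => 1) (fun _ => by norm_num) Λ).2
    simp only [one_mul] at h1
    exact h1
  have hX0 : 0 ≤ XX Λ s := tsum_nonneg (fun α => gs_nonneg _ _)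
  have hX1 : XX Λ s ≤ Z / (s - 1) := by
    rw [hXX]
    refine le_trans (tsum_P_le (fun J => (Ideal.absNorm J : ℝ) ^ (-s))
      (fun J => Real.rpow_nonneg (Nat.cast_nonneg _) _) Λ hS) ?_
    rw [← hLf]
    exact (hZ' s hs hs2).2.2
  -- the decomposition
  let R : Fin h → ℂ := fun j =>
    ∑' α : {α : 𝓞 F // α ≠ 0}, et χ μ (c j) α.1 * ((gs s ((α.1 : 𝓞 F) : F) : ℝ) : ℂ)
  have hR' : ∀ j, ∑' J : {J : Ideal (𝓞 F) // J ≠ ⊥ ∧ J ≤ c j ∧ J.IsPrincipal},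
        χ J.1 * (((Ideal.absNorm J.1 : ℝ) ^ (-s) : ℝ) : ℂ) = R j := by
    intro j
    show _ = ∑' α : {α : 𝓞 F // α ≠ 0}, et χ μ (c j) α.1 * ((gs s ((α.1 : 𝓞 F) : F) : ℝ) : ℂ)
    rw [ext_zero (𝔪 := 𝔪), unf_c hU hs hS (chi_norm_le hχ)]
  have hL : Lc χ s = ∑ j, (χ (c j))⁻¹ * (((Ideal.absNorm (c j) : ℝ) ^ s : ℝ) : ℂ) * R j := by
    rw [decomp hχ c hc hu s hS]
    exact Finset.sum_congr rfl (fun j _ => by rw [hR' j])
  have hsplit : Lc χ s =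
      ∑ j, (χ (c j))⁻¹ * (((Ideal.absNorm (c j) : ℝ) ^ s : ℝ) : ℂ) *
        (R j - κ j * ((XX Λ s : ℝ) : ℂ)) +
      K * (∑ j, (χ (c j))⁻¹ * ((((Ideal.absNorm (c j) : ℝ) ^ (s - 1) - 1 : ℝ)) : ℂ)) *
        ((XX Λ s : ℝ) : ℂ) := by
    have h1 : K * (∑ j, (χ (c j))⁻¹ * ((((Ideal.absNorm (c j) : ℝ) ^ (s - 1) - 1 : ℝ)) : ℂ)) =
        ∑ j, (χ (c j))⁻¹ * (((Ideal.absNorm (c j) : ℝ) ^ s : ℝ) : ℂ) * κ j := by
      have h2 : ∀ j, (χ (c j))⁻¹ * (((Ideal.absNorm (c j) : ℝ) ^ s : ℝ) : ℂ) * κ j =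
          K * ((χ (c j))⁻¹ * ((((Ideal.absNorm (c j) : ℝ) ^ (s - 1) - 1 : ℝ)) : ℂ)) +
            K * (χ (c j))⁻¹ := by
        intro j
        have h3 : (Ideal.absNorm (c j) : ℝ) ^ s =
            (Ideal.absNorm (c j) : ℝ) ^ (s - 1) * (Ideal.absNorm (c j) : ℝ) := by
          have h4 : (0 : ℝ) < (Ideal.absNorm (c j) : ℝ) := lt_of_lt_of_le one_pos (hnc j)
          conv_rhs => rw [← Real.rpow_one (Ideal.absNorm (c j) : ℝ)]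
          rw [← Real.rpow_mul h4.le, one_mul, ← Real.rpow_add h4]
          congr 1
          ring
        rw [h3, Complex.ofReal_mul, Complex.ofReal_sub, Complex.ofReal_one, ← hK j]
        ring
      rw [Finset.sum_congr rfl (fun j _ => h2 j), Finset.sum_add_distrib, ← Finset.mul_sum,
        ← Finset.mul_sum]
      by_cases hK0 : K = 0
      · rw [hK0]; ring
      · rw [hsum0 hK0]; ring
    rw [h1, Finset.sum_mul, ← Finset.sum_add_distrib, hL]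
    exact Finset.sum_congr rfl (fun j _ => by ring)
  rw [hsplit]
  refine le_trans (norm_add_le _ _) (add_le_add ?_ ?_)
  · refine le_trans (norm_sum_le _ _) (Finset.sum_le_sum (fun j _ => ?_))
    rw [norm_mul, norm_mul, hinv j, one_mul, Complex.norm_real, Real.norm_eq_abs,
      abs_of_nonneg (Real.rpow_nonneg (Nat.cast_nonneg _) _)]
    exact mul_le_mul (Real.rpow_le_rpow_of_exponent_le (hnc j) hs2) (hC j s hs hs2)
      (norm_nonneg _) (Real.rpow_nonneg (Nat.cast_nonneg _) _)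
  · have h1 : ‖∑ j, (χ (c j))⁻¹ * ((((Ideal.absNorm (c j) : ℝ) ^ (s - 1) - 1 : ℝ)) : ℂ)‖ ≤
        (∑ j, ((Ideal.absNorm (c j) : ℝ) - 1)) * (s - 1) := by
      rw [Finset.sum_mul]
      refine le_trans (norm_sum_le _ _) (Finset.sum_le_sum (fun j _ => ?_))
      rw [norm_mul, hinv j, one_mul, Complex.norm_real, Real.norm_eq_abs, abs_of_nonneg]
      · have h2 := _root_.rpow_one_add_le_one_add_mul_self (s := (Ideal.absNorm (c j) : ℝ) - 1)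
          (by linarith [hnc j]) (p := s - 1) hs0.le (by linarith)
        rw [add_sub_cancel] at h2
        linarith
      · have h2 := Real.one_le_rpow (hnc j) hs0.le
        linarith
    have h2 : 0 ≤ ∑ j, ((Ideal.absNorm (c j) : ℝ) - 1) :=
      Finset.sum_nonneg (fun j _ => by linarith [hnc j])
    rw [norm_mul, norm_mul, Complex.norm_real, Real.norm_eq_abs, abs_of_nonneg hX0]
    calc ‖K‖ * ‖∑ j, (χ (c j))⁻¹ * ((((Ideal.absNorm (c j) : ℝ) ^ (s - 1) - 1 : ℝ)) : ℂ)‖ *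
          XX Λ s ≤ ‖K‖ * ((∑ j, ((Ideal.absNorm (c j) : ℝ) - 1)) * (s - 1)) * (Z / (s - 1)) := by
            gcongr
      _ = ‖K‖ * (∑ j, ((Ideal.absNorm (c j) : ℝ) - 1)) * Z := by
            field_simp

end Pool.Agent.Helper17.RSP
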