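import Pool.Agent.Helper38.RSP.Goals3

set_option autoImplicit false

namespace Pool.Agent.Helper17.RSP

open NumberField Module IsDedekindDomain Pool.Agent.Helper38.RSP
open Pool.Agent.Helper38.RS (pz gs hf Gf absN)

variable {F : Type} [Field F] [NumberField F]

lemma chi_norm_le {𝔪 : Ideal (𝓞 F)} {χ : Ideal (𝓞 F) → ℂ} (hχ : IsCh 𝔪 χ) (I : Ideal (𝓞 F)) :
    ‖χ I‖ ≤ 1 := by
  by_cases h0 : I = ⊥
  · rw [h0, hχ.zero, norm_zero]; exact zero_le_one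
  · by_cases h1 : I ⊔ 𝔪 = ⊤
    · exact (hχ.cop I h0 h1).le
    · rw [hχ.ncop I h0 h1, norm_zero]; exact zero_le_one

lemma exists_inv {𝔪 : Ideal (𝓞 F)} (hm : 𝔪 ≠ ⊥) (α : 𝓞 F) (h : Ideal.span {α} ⊔ 𝔪 = ⊤) :
    ∃ β : 𝓞 F, β ≠ 0 ∧ α * β - 1 ∈ 𝔪 := by
  obtain ⟨μ, hμ, hμ0⟩ := Submodule.exists_mem_ne_zero_of_ne_bot hm
  have h1 : (1 : 𝓞 F) ∈ Ideal.span {α} ⊔ 𝔪 := by rw [h]; trivial
  rw [Submodule.mem_sup] at h1
  obtain ⟨a, ha, y, hy, hxy⟩ := h1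
  obtain ⟨x, hx⟩ := Ideal.mem_span_singleton'.mp ha
  by_cases hx0 : x = 0
  · refine ⟨μ, hμ0, ?_⟩
    have : a = 0 := by rw [← hx, hx0, zero_mul]
    rw [this, zero_add] at hxy
    rw [← hxy]
    exact 𝔪.sub_mem (𝔪.mul_mem_left _ hμ) hy
  · refine ⟨x, hx0, ?_⟩
    have : α * x - 1 = -y := by
      rw [← hxy, ← hx]; ring
    rw [this]
    exact 𝔪.neg_mem hy

lemma sup_congr {𝔪 : Ideal (𝓞 F)} {α β : 𝓞 F} (h : α - β ∈ 𝔪) :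
    Ideal.span {α} ⊔ 𝔪 = Ideal.span {β} ⊔ 𝔪 := by
  have key : ∀ {x y : 𝓞 F}, x - y ∈ 𝔪 → Ideal.span {x} ⊔ 𝔪 ≤ Ideal.span {y} ⊔ 𝔪 := by
    intro x y hxy
    refine sup_le ?_ le_sup_right
    rw [Ideal.span_singleton_le_iff_mem]
    have h1 : y ∈ Ideal.span {y} ⊔ 𝔪 :=
      (le_sup_left : Ideal.span {y} ≤ _) (Ideal.mem_span_singleton_self y)
    have h2 : x - y ∈ Ideal.span {y} ⊔ 𝔪 := (le_sup_right : 𝔪 ≤ _) hxy
    have h3 := Ideal.add_mem _ h2 h1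
    rwa [sub_add_cancel] at h3
  refine le_antisymm (key h) (key ?_)
  rw [← neg_sub]
  exact 𝔪.neg_mem h

lemma chi_congr {𝔪 : Ideal (𝓞 F)} {χ : Ideal (𝓞 F) → ℂ} (hχ : IsCh 𝔪 χ) {α β : 𝓞 F}
    (hα : α ≠ 0) (hβ : β ≠ 0) (h : α - β ∈ 𝔪) :
    χ (Ideal.span {α}) = χ (Ideal.span {β}) := by
  have hα' : Ideal.span {α} ≠ ⊥ := fun h' => hα (Ideal.span_singleton_eq_bot.mp h')
  have hβ' : Ideal.span {β} ≠ ⊥ := fun h' => hβ (Ideal.span_singleton_eq_bot.mp h')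
  by_cases hc : Ideal.span {α} ⊔ 𝔪 = ⊤
  · obtain ⟨γ, hγ, hγ'⟩ := exists_inv hχ.ne α hc
    have h1 : χ (Ideal.span {α * γ}) = 1 := hχ.ray _ (mul_ne_zero hα hγ) hγ'
    have h2 : χ (Ideal.span {β * γ}) = 1 := by
      refine hχ.ray _ (mul_ne_zero hβ hγ) ?_
      have : β * γ - 1 = (α * γ - 1) - (α - β) * γ := by ring
      rw [this]
      exact 𝔪.sub_mem hγ' (𝔪.mul_mem_right _ h)
    rw [← Ideal.span_singleton_mul_span_singleton, hχ.mul] at h1 h2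
    have h3 : χ (Ideal.span {γ}) ≠ 0 := by
      intro h4
      rw [h4, mul_zero] at h1
      exact zero_ne_one h1
    exact mul_right_cancel₀ h3 (h1.trans h2.symm)
  · rw [hχ.ncop _ hα' hc, hχ.ncop _ hβ' (by rw [← sup_congr h]; exact hc)]

/-- the extension of `α ↦ χ((α))` to a function periodic modulo `𝔪` -/
noncomputable def ch (χ : Ideal (𝓞 F) → ℂ) (μ α : 𝓞 F) : ℂ := by
  classical
  exact if α = 0 then χ (Ideal.span {μ}) else χ (Ideal.span {α})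

lemma ch_zero (χ : Ideal (𝓞 F) → ℂ) (μ : 𝓞 F) : ch χ μ 0 = χ (Ideal.span {μ}) := by
  unfold ch; rw [if_pos rfl]

lemma ch_ne (χ : Ideal (𝓞 F) → ℂ) (μ : 𝓞 F) {α : 𝓞 F} (h : α ≠ 0) :
    ch χ μ α = χ (Ideal.span {α}) := by
  unfold ch; rw [if_neg h]

lemma ch_norm_le {𝔪 : Ideal (𝓞 F)} {χ : Ideal (𝓞 F) → ℂ} (hχ : IsCh 𝔪 χ) (μ α : 𝓞 F) :
    ‖ch χ μ α‖ ≤ 1 := by
  by_cases h : α = 0
  · rw [h, ch_zero]; exact chi_norm_le hχ _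
  · rw [ch_ne _ _ h]; exact chi_norm_le hχ _

lemma ch_congr {𝔪 : Ideal (𝓞 F)} {χ : Ideal (𝓞 F) → ℂ} (hχ : IsCh 𝔪 χ) {μ : 𝓞 F} (hμ : μ ∈ 𝔪)
    (hμ0 : μ ≠ 0) {α β : 𝓞 F} (h : α - β ∈ 𝔪) : ch χ μ α = ch χ μ β := by
  by_cases hα : α = 0
  · by_cases hβ : β = 0
    · rw [hα, hβ]
    · rw [hα, ch_zero, ch_ne _ _ hβ]
      refine chi_congr hχ hμ0 hβ ?_
      rw [hα, zero_sub] at h
      have h' := 𝔪.add_mem hμ h
      rwa [← sub_eq_add_neg] at h'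
  · by_cases hβ : β = 0
    · rw [hβ, ch_zero, ch_ne _ _ hα]
      refine chi_congr hχ hα hμ0 ?_
      rw [hβ, sub_zero] at h
      exact 𝔪.sub_mem h hμ
    · rw [ch_ne _ _ hα, ch_ne _ _ hβ]
      exact chi_congr hχ hα hβ h

lemma ch_mul {𝔪 : Ideal (𝓞 F)} {χ : Ideal (𝓞 F) → ℂ} (hχ : IsCh 𝔪 χ) {μ : 𝓞 F} (hμ : μ ∈ 𝔪)
    (hμ0 : μ ≠ 0) {α : 𝓞 F} (hα : α ≠ 0) (β : 𝓞 F) :
    ch χ μ (α * β) = χ (Ideal.span {α}) * ch χ μ β := by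
  by_cases hβ : β = 0
  · rw [hβ, mul_zero, ch_zero, ← hχ.mul, Ideal.span_singleton_mul_span_singleton]
    refine chi_congr hχ hμ0 (mul_ne_zero hα hμ0) ?_
    exact 𝔪.sub_mem hμ (𝔪.mul_mem_left _ hμ)
  · rw [ch_ne _ _ (mul_ne_zero hα hβ), ch_ne _ _ hβ, ← hχ.mul,
      Ideal.span_singleton_mul_span_singleton]

lemma finQ {Λ : Ideal (𝓞 F)} (h : Λ ≠ ⊥) : Finite (𝓞 F ⧸ Λ) :=
  Ideal.finiteQuotientOfFreeOfNeBot _ h

lemma sur_sub (Λ : Ideal (𝓞 F)) (a : 𝓞 F) :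
    Function.surjInv Ideal.Quotient.mk_surjective (Ideal.Quotient.mk Λ a) - a ∈ Λ := by
  rw [← Ideal.Quotient.eq]
  exact Function.surjInv_eq Ideal.Quotient.mk_surjective _

/-- the induced function on the quotient -/
noncomputable def chQ (χ : Ideal (𝓞 F) → ℂ) (μ : 𝓞 F) (𝔪 : Ideal (𝓞 F)) (x : 𝓞 F ⧸ 𝔪) : ℂ :=
  ch χ μ (Function.surjInv Ideal.Quotient.mk_surjective x)

lemma chQ_mk {𝔪 : Ideal (𝓞 F)} {χ : Ideal (𝓞 F) → ℂ} (hχ : IsCh 𝔪 χ) {μ : 𝓞 F} (hμ : μ ∈ 𝔪)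
    (hμ0 : μ ≠ 0) (a : 𝓞 F) : chQ χ μ 𝔪 (Ideal.Quotient.mk 𝔪 a) = ch χ μ a :=
  ch_congr hχ hμ hμ0 (sur_sub 𝔪 a)

/-- the total sum of the character over the residue classes -/
noncomputable def tot (χ : Ideal (𝓞 F) → ℂ) (μ : 𝓞 F) (𝔪 : Ideal (𝓞 F)) : ℂ :=
  ∑ᶠ x : 𝓞 F ⧸ 𝔪, chQ χ μ 𝔪 x

lemma tot_ne {𝔪 : Ideal (𝓞 F)} {χ : Ideal (𝓞 F) → ℂ} (hχ : IsCh 𝔪 χ) {μ : 𝓞 F} (hμ : μ ∈ 𝔪)
    (hμ0 : μ ≠ 0) (h : tot χ μ 𝔪 ≠ 0) {α : 𝓞 F} (hα : α ≠ 0) (hc : Ideal.span {α} ⊔ 𝔪 = ⊤) :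
    χ (Ideal.span {α}) = 1 := by
  have := finQ hχ.ne
  have := Fintype.ofFinite (𝓞 F ⧸ 𝔪)
  obtain ⟨γ, hγ, hγ'⟩ := exists_inv hχ.ne α hc
  have hu : Ideal.Quotient.mk 𝔪 α * Ideal.Quotient.mk 𝔪 γ = 1 := by
    rw [← map_mul, ← map_one (Ideal.Quotient.mk 𝔪), Ideal.Quotient.eq]
    exact hγ'
  have hbij : Function.Bijective (fun x : 𝓞 F ⧸ 𝔪 => Ideal.Quotient.mk 𝔪 α * x) := by
    constructor
    · intro x y hxy
      have h1 := congrArg (fun z => Ideal.Quotient.mk 𝔪 γ * z) hxy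
      simp only [← mul_assoc] at h1
      rw [mul_comm (Ideal.Quotient.mk 𝔪 γ), hu, one_mul, one_mul] at h1
      exact h1
    · intro y
      refine ⟨Ideal.Quotient.mk 𝔪 γ * y, ?_⟩
      simp only [← mul_assoc]
      rw [hu, one_mul]
  have h1 : tot χ μ 𝔪 = χ (Ideal.span {α}) * tot χ μ 𝔪 := by
    conv_lhs => rw [tot, finsum_eq_sum_of_fintype, ← hbij.sum_comp]
    rw [tot, finsum_eq_sum_of_fintype, Finset.mul_sum]
    refine Finset.sum_congr rfl (fun x _ => ?_)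
    obtain ⟨b, rfl⟩ := Ideal.Quotient.mk_surjective x
    rw [← map_mul, chQ_mk hχ hμ hμ0, chQ_mk hχ hμ hμ0, ch_mul hχ hμ hμ0 hα]
  have h2 : (1 - χ (Ideal.span {α})) * tot χ μ 𝔪 = 0 := by
    rw [sub_mul, one_mul, ← h1, sub_self]
  rcases mul_eq_zero.mp h2 with h3 | h3
  · exact (sub_eq_zero.mp h3).symm
  · exact absurd h3 h

/-- fibres of a surjective homomorphism of finite groups have the same number of elements -/
lemma sum_fiber {G H : Type} [AddCommGroup G] [AddCommGroup H] [Fintype G] [Fintype H]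
    (q : G →+ H) (hq : Function.Surjective q) (f : H → ℂ) :
    (Fintype.card H : ℂ) * ∑ g, f (q g) = (Fintype.card G : ℂ) * ∑ h, f h := by
  classical
  have hk : ∀ h : H, (Finset.univ.filter (fun g : G => q g = h)).card =
      (Finset.univ.filter (fun g : G => q g = 0)).card := by
    intro h
    exact AddMonoidHom.card_fiber_eq_of_mem_range q (hq h) (hq 0)
  set k := (Finset.univ.filter (fun g : G => q g = 0)).card with hkdef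
  have h1 : ∑ g, f (q g) = ∑ h : H, (k : ℂ) * f h := by
    rw [← Finset.sum_fiberwise Finset.univ q (fun g => f (q g))]
    refine Finset.sum_congr rfl (fun h _ => ?_)
    rw [Finset.sum_congr rfl (g := fun _ => f h)]
    · rw [Finset.sum_const, hk h, nsmul_eq_mul]
    · intro g hg
      rw [(Finset.mem_filter.mp hg).2]
  have h2 : Fintype.card G = Fintype.card H * k := by
    have := Finset.card_eq_sum_card_fiberwise (f := q) (s := (Finset.univ : Finset G))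
      (t := (Finset.univ : Finset H)) (fun _ _ => Finset.mem_univ _)
    rw [Finset.card_univ] at this
    rw [this, Finset.sum_congr rfl (fun h _ => hk h), Finset.sum_const, Finset.card_univ,
      smul_eq_mul]
  rw [h1, h2, ← Finset.mul_sum]
  push_cast
  ring

/-- `η` for the ideal `c` -/
noncomputable def et (χ : Ideal (𝓞 F) → ℂ) (μ : 𝓞 F) (c : Ideal (𝓞 F)) (α : 𝓞 F) : ℂ := by
  classical
  exact if α ∈ c then ch χ μ α else 0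

lemma et_mem (χ : Ideal (𝓞 F) → ℂ) (μ : 𝓞 F) {c : Ideal (𝓞 F)} {α : 𝓞 F} (h : α ∈ c) :
    et χ μ c α = ch χ μ α := by
  unfold et; rw [if_pos h]

lemma et_nmem (χ : Ideal (𝓞 F) → ℂ) (μ : 𝓞 F) {c : Ideal (𝓞 F)} {α : 𝓞 F} (h : α ∉ c) :
    et χ μ c α = 0 := by
  unfold et; rw [if_neg h]

lemma et_norm_le {𝔪 : Ideal (𝓞 F)} {χ : Ideal (𝓞 F) → ℂ} (hχ : IsCh 𝔪 χ) (μ : 𝓞 F)
    (c : Ideal (𝓞 F)) (α : 𝓞 F) : ‖et χ μ c α‖ ≤ 1 := by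
  by_cases h : α ∈ c
  · rw [et_mem _ _ h]; exact ch_norm_le hχ _ _
  · rw [et_nmem _ _ h, norm_zero]; exact zero_le_one

lemma et_congr {𝔪 : Ideal (𝓞 F)} {χ : Ideal (𝓞 F) → ℂ} (hχ : IsCh 𝔪 χ) {μ : 𝓞 F} (hμ : μ ∈ 𝔪)
    (hμ0 : μ ≠ 0) {c : Ideal (𝓞 F)} {α β : 𝓞 F} (h : α - β ∈ 𝔪) (h' : α - β ∈ c) :
    et χ μ c α = et χ μ c β := by
  by_cases hα : α ∈ c
  · have hβ : β ∈ c := by
      have := c.sub_mem hα h'
      rwa [sub_sub_cancel] at this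
    rw [et_mem _ _ hα, et_mem _ _ hβ, ch_congr hχ hμ hμ0 h]
  · have hβ : β ∉ c := by
      intro hβ
      apply hα
      have := c.add_mem h' hβ
      rwa [sub_add_cancel] at this
    rw [et_nmem _ _ hα, et_nmem _ _ hβ]

lemma kappa {𝔪 : Ideal (𝓞 F)} {χ : Ideal (𝓞 F) → ℂ} (hχ : IsCh 𝔪 χ) {μ : 𝓞 F} (hμ : μ ∈ 𝔪)
    (hμ0 : μ ≠ 0) {c Λ : Ideal (𝓞 F)} (hc : c ≠ ⊥) (hcm : c ⊔ 𝔪 = ⊤) (hΛ : Λ ≠ ⊥) (h1 : Λ ≤ 𝔪)
    (h2 : Λ ≤ c) :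
    (Ideal.absNorm 𝔪 : ℂ) * (Ideal.absNorm c : ℂ) *
      (∑ᶠ ρ : 𝓞 F ⧸ Λ, et χ μ c (Function.surjInv Ideal.Quotient.mk_surjective ρ)) =
      (Ideal.absNorm Λ : ℂ) * tot χ μ 𝔪 := by
  classical
  have := finQ hχ.ne
  have := finQ hc
  have := finQ hΛ
  have := Fintype.ofFinite (𝓞 F ⧸ 𝔪)
  have := Fintype.ofFinite (𝓞 F ⧸ c)
  have := Fintype.ofFinite (𝓞 F ⧸ Λ)
  let q : (𝓞 F ⧸ Λ) →+* (𝓞 F ⧸ 𝔪) × (𝓞 F ⧸ c) :=
    (Ideal.Quotient.factor h1).prod (Ideal.Quotient.factor h2)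
  have hqmk : ∀ a : 𝓞 F, q (Ideal.Quotient.mk Λ a) =
      (Ideal.Quotient.mk 𝔪 a, Ideal.Quotient.mk c a) := by
    intro a; rfl
  have hq : Function.Surjective q := by
    rintro ⟨x, y⟩
    obtain ⟨a, rfl⟩ := Ideal.Quotient.mk_surjective x
    obtain ⟨b, rfl⟩ := Ideal.Quotient.mk_surjective y
    have h3 : (1 : 𝓞 F) ∈ c ⊔ 𝔪 := by rw [hcm]; trivial
    rw [Submodule.mem_sup] at h3
    obtain ⟨f, hf, e, he, hfe⟩ := h3
    refine ⟨Ideal.Quotient.mk Λ (a * f + b * e), ?_⟩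
    rw [hqmk]
    refine Prod.ext ?_ ?_
    · show Ideal.Quotient.mk 𝔪 (a * f + b * e) = Ideal.Quotient.mk 𝔪 a
      rw [Ideal.Quotient.eq]
      have : a * f + b * e - a = (b - a) * e := by
        have : f = 1 - e := by rw [← hfe]; ring
        rw [this]; ring
      rw [this]
      exact 𝔪.mul_mem_left _ he
    · show Ideal.Quotient.mk c (a * f + b * e) = Ideal.Quotient.mk c b
      rw [Ideal.Quotient.eq]
      have : a * f + b * e - b = (a - b) * f := by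
        have : e = 1 - f := by rw [← hfe]; ring
        rw [this]; ring
      rw [this]
      exact c.mul_mem_left _ hf
  let G : (𝓞 F ⧸ 𝔪) × (𝓞 F ⧸ c) → ℂ := fun z => if z.2 = 0 then chQ χ μ 𝔪 z.1 else 0
  have hG : ∀ ρ : 𝓞 F ⧸ Λ, et χ μ c (Function.surjInv Ideal.Quotient.mk_surjective ρ) =
      G (q ρ) := by
    intro ρ
    obtain ⟨a, rfl⟩ := Ideal.Quotient.mk_surjective ρ
    have h3 := sur_sub Λ a
    rw [et_congr hχ hμ hμ0 (h1 h3) (h2 h3), hqmk]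
    by_cases ha : a ∈ c
    · rw [et_mem _ _ ha]
      show ch χ μ a = if Ideal.Quotient.mk c a = 0 then chQ χ μ 𝔪 (Ideal.Quotient.mk 𝔪 a) else 0
      rw [if_pos (Ideal.Quotient.eq_zero_iff_mem.mpr ha), chQ_mk hχ hμ hμ0]
    · rw [et_nmem _ _ ha]
      show 0 = if Ideal.Quotient.mk c a = 0 then chQ χ μ 𝔪 (Ideal.Quotient.mk 𝔪 a) else 0
      rw [if_neg (fun h4 => ha (Ideal.Quotient.eq_zero_iff_mem.mp h4))]
  have h5 := sum_fiber (q : (𝓞 F ⧸ Λ) →+ (𝓞 F ⧸ 𝔪) × (𝓞 F ⧸ c)) hq G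
  have h6 : ∑ z, G z = tot χ μ 𝔪 := by
    rw [Fintype.sum_prod_type, tot, finsum_eq_sum_of_fintype]
    refine Finset.sum_congr rfl (fun x _ => ?_)
    show (∑ y : 𝓞 F ⧸ c, if y = 0 then chQ χ μ 𝔪 x else 0) = _
    rw [Finset.sum_ite_eq' Finset.univ 0 (fun _ => chQ χ μ 𝔪 x), if_pos (Finset.mem_univ _)]
  have h7 : (∑ᶠ ρ : 𝓞 F ⧸ Λ, et χ μ c (Function.surjInv Ideal.Quotient.mk_surjective ρ)) =
      ∑ ρ, G (q ρ) := by
    rw [finsum_eq_sum_of_fintype]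
    exact Finset.sum_congr rfl (fun ρ _ => hG ρ)
  have hcard : ∀ I : Ideal (𝓞 F), ∀ _ : Fintype (𝓞 F ⧸ I),
      Ideal.absNorm I = Fintype.card (𝓞 F ⧸ I) := by
    intro I _
    rw [Ideal.absNorm_apply, Submodule.cardQuot_apply, Nat.card_eq_fintype_card]
  rw [h7, ← h6, hcard 𝔪 inferInstance, hcard c inferInstance, hcard Λ inferInstance]
  rw [Fintype.card_prod] at h5
  push_cast at h5
  exact h5

/-- the sum of the character over the ideal classes vanishes -/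
lemma sum_class {𝔪 : Ideal (𝓞 F)} {χ : Ideal (𝓞 F) → ℂ} (hχ : IsCh 𝔪 χ) {h : ℕ}
    (c : Fin h → Ideal (𝓞 F)) (hc : ∀ j, c j ≠ ⊥ ∧ c j ⊔ 𝔪 = ⊤)
    (hu : ∀ J : Ideal (𝓞 F), J ≠ ⊥ → ∃! j, (J * c j).IsPrincipal)
    (hp : ∀ α : 𝓞 F, α ≠ 0 → Ideal.span {α} ⊔ 𝔪 = ⊤ → χ (Ideal.span {α}) = 1) :
    ∑ j, (χ (c j))⁻¹ = 0 := by
  have hpr : ∀ J : Ideal (𝓞 F), J ≠ ⊥ → J ⊔ 𝔪 = ⊤ → J.IsPrincipal → χ J = 1 := by
    intro J hJ hJm hJp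
    obtain ⟨a, ha⟩ := hJp.principal
    have ha' : J = Ideal.span {a} := ha
    rw [ha'] at hJ hJm ⊢
    exact hp a (fun h0 => hJ (by rw [h0]; simp)) hJm
  have hmul : ∀ I J : Ideal (𝓞 F), I ⊔ 𝔪 = ⊤ → J ⊔ 𝔪 = ⊤ → I * J ⊔ 𝔪 = ⊤ := by
    intro I J hI hJ
    have h1 : IsCoprime I 𝔪 := Ideal.isCoprime_iff_sup_eq.mpr hI
    have h2 : IsCoprime J 𝔪 := Ideal.isCoprime_iff_sup_eq.mpr hJ
    exact Ideal.isCoprime_iff_sup_eq.mp (h1.mul_left h2)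
  have hne : ∀ j, χ (c j) ≠ 0 := by
    intro j h0
    have := hχ.cop _ (hc j).1 (hc j).2
    rw [h0, norm_zero] at this
    exact zero_ne_one this
  -- the involution σ
  choose σ hσ hσu using fun j => hu (c j) (hc j).1
  have hσσ : Function.Involutive σ := by
    intro j
    refine (hσu (σ j) j ?_).symm
    show (c (σ j) * c j).IsPrincipal
    rw [mul_comm]
    exact hσ j
  obtain ⟨I, hI0, hI1⟩ := hχ.nontriv
  have hIb : I ≠ ⊥ := by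
    intro h0; rw [h0, hχ.zero] at hI0; exact hI0 rfl
  have hIm : I ⊔ 𝔪 = ⊤ := by
    by_contra h0
    exact hI0 (hχ.ncop I hIb h0)
  choose τ hτ hτu using fun j => hu (I * c j) (mul_ne_zero hIb (hc j).1)
  have hττ : Function.Involutive τ := by
    intro j
    refine (hτu (τ j) j ?_).symm
    show (I * c (τ j) * c j).IsPrincipal
    rw [mul_right_comm]
    exact hτ j
  have e1 : ∀ j, χ (c (σ j)) = (χ (c j))⁻¹ := by
    intro j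
    have h1 := hpr _ (mul_ne_zero (hc j).1 (hc (σ j)).1) (hmul _ _ (hc j).2 (hc (σ j)).2) (hσ j)
    rw [hχ.mul] at h1
    exact eq_inv_of_mul_eq_one_right h1
  have e2 : ∀ j, χ (c (τ j)) = (χ I)⁻¹ * (χ (c j))⁻¹ := by
    intro j
    have h1 := hpr _ (mul_ne_zero (mul_ne_zero hIb (hc j).1) (hc (τ j)).1)
      (hmul _ _ (hmul _ _ hIm (hc j).2) (hc (τ j)).2) (hτ j)
    rw [hχ.mul, hχ.mul] at h1
    rw [← mul_inv]
    exact eq_inv_of_mul_eq_one_right h1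
  have s1 : ∑ j, (χ (c j))⁻¹ = ∑ j, χ (c j) := by
    rw [← hσσ.bijective.sum_comp (fun j => χ (c j))]
    exact Finset.sum_congr rfl (fun j _ => (e1 j).symm)
  have s2 : ∑ j, χ (c j) = (χ I)⁻¹ * ∑ j, (χ (c j))⁻¹ := by
    rw [← hττ.bijective.sum_comp (fun j => χ (c j)), Finset.mul_sum]
    exact Finset.sum_congr rfl (fun j _ => e2 j)
  rw [s2] at s1
  have h3 : (1 - (χ I)⁻¹) * ∑ j, (χ (c j))⁻¹ = 0 := by
    rw [sub_mul, one_mul, ← s1, sub_self]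
  rcases mul_eq_zero.mp h3 with h4 | h4
  · exfalso
    apply hI1
    have h5 : (χ I)⁻¹ = 1 := (sub_eq_zero.mp h4).symm
    rw [← inv_inv (χ I), h5, inv_one]
  · exact h4

end Pool.Agent.Helper17.RSP
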